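import Mathlib

set_option autoImplicit false

namespace Pool.Agent.Results.MP_d408b2_an.AllOrders

open Filter Topology

/-- `mx A x n j = max {A, x n, x (n + 1), …, x (n + j - 1)}`. -/
noncomputable def mx (A : ℝ) (x : ℕ → ℝ) (n : ℕ) : ℕ → ℝ
  | 0 => A
  | j + 1 => max (mx A x n j) (x (n + j))

/-- `x` is a positive solution of the equation of order `k + 1`
`x (n + k + 1) = max {A, x (n + k), …, x (n + 1)} / x n`. -/
def IsSolution (k : ℕ) (A : ℝ) (x : ℕ → ℝ) : Prop :=
  (∀ n, 0 < x n) ∧ ∀ n, x (n + k + 1) = mx A x (n + 1) k / x n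

/-- The invariant `max {A, x n, …, x (n + k)} * ∏_{i ≤ k} max {1, 1 / x (n + i)}`. -/
noncomputable def inv (k : ℕ) (A : ℝ) (x : ℕ → ℝ) (n : ℕ) : ℝ :=
  mx A x n (k + 1) * ∏ i ∈ Finset.range (k + 1), max 1 (1 / x (n + i))

lemma mx_left (A : ℝ) (x : ℕ → ℝ) (n j : ℕ) :
    mx A x n (j + 1) = max (x n) (mx A x (n + 1) j) := by
  induction j with
  | zero => simp [mx, max_comm]
  | succ j ih =>
    show max (mx A x n (j + 1)) (x (n + (j + 1))) = max (x n) (max (mx A x (n + 1) j) (x (n + 1 + j)))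
    rw [ih, max_assoc, show n + (j + 1) = n + 1 + j by ring]

lemma le_mx (A : ℝ) (x : ℕ → ℝ) (n : ℕ) : ∀ j i, i < j → x (n + i) ≤ mx A x n j := by
  intro j
  induction j with
  | zero => intro i hi; omega
  | succ j ih =>
    intro i hi
    show x (n + i) ≤ max (mx A x n j) (x (n + j))
    rcases Nat.lt_succ_iff_lt_or_eq.1 hi with h | h
    · exact (ih i h).trans (le_max_left _ _)
    · rw [h]; exact le_max_right _ _

lemma A_le_mx (A : ℝ) (x : ℕ → ℝ) (n : ℕ) : ∀ j, A ≤ mx A x n j := by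
  intro j
  induction j with
  | zero => exact le_refl _
  | succ j ih => exact ih.trans (le_max_left _ _)

lemma mx_le (A : ℝ) (x : ℕ → ℝ) (n : ℕ) (c : ℝ) (hA : A ≤ c) :
    ∀ j, (∀ i, i < j → x (n + i) ≤ c) → mx A x n j ≤ c := by
  intro j
  induction j with
  | zero => intro _; exact hA
  | succ j ih =>
    intro h
    exact max_le (ih fun i hi => h i (by omega)) (h j (by omega))

lemma mx_pos {k : ℕ} (hk : 1 ≤ k) {A : ℝ} {x : ℕ → ℝ} (hx : ∀ n, 0 < x n) (n : ℕ) :
    0 < mx A x n k :=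
  (hx (n + 0)).trans_le (le_mx A x n k 0 (by omega))

lemma inv_step {k : ℕ} (hk : 1 ≤ k) {A : ℝ} {x : ℕ → ℝ} (h : IsSolution k A x) (n : ℕ) :
    inv k A x (n + 1) = inv k A x n := by
  obtain ⟨hx, hrec⟩ := h
  set S := mx A x (n + 1) k with hS
  have hS0 : 0 < S := mx_pos hk hx (n + 1)
  have hxn := hx n
  have e1 : x (n + 1 + k) = S / x n := by
    rw [hS, ← hrec n]
    congr 1
    ring
  have e2 : mx A x (n + 1) (k + 1) = S * max 1 (1 / x n) := by
    show max (mx A x (n + 1) k) (x (n + 1 + k)) = _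
    rw [e1, ← hS, mul_max_of_nonneg _ _ hS0.le, mul_one, mul_one_div]
  have e3 : S * max 1 (1 / x (n + 1 + k)) = mx A x n (k + 1) := by
    rw [mx_left, ← hS, e1, mul_max_of_nonneg _ _ hS0.le, mul_one, one_div_div,
      mul_div_cancel₀ _ hS0.ne', max_comm]
  unfold inv
  rw [Finset.prod_range_succ, e2, Finset.prod_range_succ' (fun i => max 1 (1 / x (n + i))),
    ← e3]
  have e4 : ∀ i, x (n + (i + 1)) = x (n + 1 + i) := fun i => by
    congr 1
    ring
  simp only [e4, add_zero]
  ring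

lemma inv_const {k : ℕ} (hk : 1 ≤ k) {A : ℝ} {x : ℕ → ℝ} (h : IsSolution k A x) (n : ℕ) :
    inv k A x n = inv k A x 0 := by
  induction n with
  | zero => rfl
  | succ n ih => rw [inv_step hk h, ih]

lemma one_le_prod (x : ℕ → ℝ) (s : Finset ℕ) : 1 ≤ ∏ i ∈ s, max 1 (1 / x i) := by
  apply Finset.one_le_prod
  intro i _
  exact le_max_left _ _

/-- the invariant bounds the solution from above -/
lemma le_inv {k : ℕ} {A : ℝ} {x : ℕ → ℝ} (hx : ∀ n, 0 < x n) (n i : ℕ) (hi : i ≤ k) :
    x (n + i) ≤ inv k A x n := by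
  have h1 : x (n + i) ≤ mx A x n (k + 1) := le_mx A x n (k + 1) i (by omega)
  have h2 : 1 ≤ ∏ i ∈ Finset.range (k + 1), max 1 (1 / x (n + i)) := by
    apply Finset.one_le_prod
    intro i _
    exact le_max_left _ _
  calc x (n + i) = x (n + i) * 1 := (mul_one _).symm
    _ ≤ _ := mul_le_mul h1 h2 zero_le_one ((hx _).le.trans h1)

/-- the invariant bounds the solution from below -/
lemma inv_ge {k : ℕ} (hk : 1 ≤ k) {A : ℝ} {x : ℕ → ℝ} (hx : ∀ n, 0 < x n) (n i : ℕ)
    (hi : i ≤ k) : max 1 (1 / x (n + i)) ≤ inv k A x n := by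
  -- another index of the window
  obtain ⟨j, hj, hji⟩ : ∃ j, j ≤ k ∧ j ≠ i := by
    by_cases h : i = 0
    · exact ⟨1, hk, by omega⟩
    · exact ⟨0, by omega, fun h' => h h'.symm⟩
  have h1 : x (n + j) ≤ mx A x n (k + 1) := le_mx A x n (k + 1) j (by omega)
  have hi' : i ∈ Finset.range (k + 1) := Finset.mem_range.2 (by omega)
  have hj' : j ∈ (Finset.range (k + 1)).erase i :=
    Finset.mem_erase.2 ⟨hji, Finset.mem_range.2 (by omega)⟩
  unfold inv
  rw [← Finset.mul_prod_erase _ _ hi', ← Finset.mul_prod_erase _ _ hj']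
  set a := max 1 (1 / x (n + i)) with ha
  set b := max 1 (1 / x (n + j)) with hb
  set p := ∏ i ∈ ((Finset.range (k + 1)).erase i).erase j, max 1 (1 / x (n + i)) with hp
  have ha1 : 1 ≤ a := le_max_left _ _
  have hp1 : 1 ≤ p := by
    apply Finset.one_le_prod
    intro i _
    exact le_max_left _ _
  have hb1 : 1 ≤ x (n + j) * b := by
    have h3 : 1 / x (n + j) ≤ b := le_max_right _ _
    rw [div_le_iff₀ (hx _)] at h3
    linarith
  have hb2 : 1 ≤ mx A x n (k + 1) * b :=
    hb1.trans (mul_le_mul_of_nonneg_right h1 (zero_le_one.trans (le_max_left _ _)))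
  calc a = 1 * (a * 1) := by ring
    _ ≤ (mx A x n (k + 1) * b) * (a * p) :=
        mul_le_mul hb2 (mul_le_mul_of_nonneg_left hp1 (zero_le_one.trans ha1))
          (by positivity) (zero_le_one.trans hb2)
    _ = _ := by ring

/-- if the values in a window are all equal to the equilibrium, the solution is constant -/
lemma const_of_window {k : ℕ} {A c : ℝ} {x : ℕ → ℝ} (h : IsSolution k A x) (hc : 0 < c)
    (hcc : c * c = max A c) (hk : 1 ≤ k) (n : ℕ) (hw : ∀ i, i ≤ k → x (n + i) = c) :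
    ∀ m, x m = c := by
  obtain ⟨hx, hrec⟩ := h
  have hmx : ∀ m, (∀ i, i < k → x (m + i) = c) → mx A x m k = c * c := by
    intro m hm
    rw [hcc]
    apply le_antisymm
    · exact mx_le A x m _ (le_max_left _ _) k fun i hi => (hm i hi).le.trans (le_max_right _ _)
    · refine max_le (A_le_mx A x m k) ?_
      rw [← hm 0 (by omega)]
      exact le_mx A x m k 0 (by omega)
  -- forward
  have hf : ∀ j i, i ≤ k → x (n + j + i) = c := by
    intro j
    induction j with
    | zero => intro i hi; rw [add_zero]; exact hw i hi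
    | succ j ih =>
      intro i hi
      rcases Nat.lt_or_ge i k with h | h
      · rw [show n + (j + 1) + i = n + j + (i + 1) by ring]
        exact ih (i + 1) (by omega)
      · have hik : i = k := by omega
        rw [hik, show n + (j + 1) + k = (n + j) + k + 1 by ring, hrec (n + j),
          hmx (n + j + 1) (fun i hi => by
            rw [show n + j + 1 + i = n + j + (i + 1) by ring]
            exact ih (i + 1) (by omega)), ← add_zero (n + j), ih 0 (by omega)]
        field_simp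
  -- backward
  have hb : ∀ j, j ≤ n → ∀ i, i ≤ k → x (n - j + i) = c := by
    intro j
    induction j with
    | zero => intro _ i hi; rw [Nat.sub_zero]; exact hw i hi
    | succ j ih =>
      intro hj i hi
      have ih' := ih (by omega)
      rcases Nat.eq_zero_or_pos i with h | h
      · subst h
        set m := n - (j + 1) with hm
        have hm1 : n - j = m + 1 := by omega
        rw [hm1] at ih'
        have h1 := hrec m
        rw [hmx (m + 1) (fun i hi => ih' i (by omega)), show m + k + 1 = m + 1 + k by ring,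
          ih' k le_rfl, eq_div_iff (hx m).ne'] at h1
        rw [add_zero]
        exact mul_left_cancel₀ hc.ne' h1
      · rw [show n - (j + 1) + i = n - j + (i - 1) by omega]
        exact ih' (i - 1) (by omega)
  intro m
  rcases le_total m n with hmn | hmn
  · have := hb (n - m) (by omega) 0 (by omega)
    rwa [show n - (n - m) + 0 = m by omega] at this
  · have := hf (m - n) 0 (by omega)
    rwa [show n + (m - n) + 0 = m by omega] at this

/-- case `A ≤ 1`: the invariant is `1` only at the equilibrium -/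
lemma window_of_inv_one {k : ℕ} (hk : 1 ≤ k) {A : ℝ} {x : ℕ → ℝ} (hx : ∀ n, 0 < x n) (n : ℕ)
    (h : inv k A x n ≤ 1) : ∀ i, i ≤ k → x (n + i) = 1 := by
  intro i hi
  apply le_antisymm ((le_inv hx n i hi).trans h)
  have h1 := ((le_max_right _ _).trans (inv_ge (A := A) hk hx n i hi)).trans h
  rwa [div_le_one (hx _)] at h1

/-- the equilibrium -/
noncomputable def eqm (A : ℝ) : ℝ := max 1 (Real.sqrt A)

lemma eqm_pos (A : ℝ) : 0 < eqm A := zero_lt_one.trans_le (le_max_left _ _)

lemma eqm_of_le {A : ℝ} (hA : A ≤ 1) : eqm A = 1 :=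
  max_eq_left (by rw [Real.sqrt_le_one]; exact hA)

lemma one_lt_sqrt' {A : ℝ} (hA : 1 < A) : 1 < Real.sqrt A := by
  rw [Real.lt_sqrt (by norm_num)]
  simpa using hA

lemma eqm_of_gt {A : ℝ} (hA : 1 < A) : eqm A = Real.sqrt A :=
  max_eq_right (one_lt_sqrt' hA).le

lemma sqrt_lt_self' {A : ℝ} (hA : 1 < A) : Real.sqrt A < A := by
  rw [Real.sqrt_lt' (by linarith)]
  nlinarith

lemma eqm_eq (A : ℝ) : eqm A * eqm A = max A (eqm A) := by
  rcases le_or_gt A 1 with h | h
  · rw [eqm_of_le h, max_eq_right h, one_mul]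
  · rw [eqm_of_gt h, Real.mul_self_sqrt (by linarith), max_eq_left (sqrt_lt_self' h).le]

lemma eqm_unique {A c : ℝ} (hc : 0 < c) (h : c * c = max A c) : c = eqm A := by
  rcases le_total A c with h1 | h1
  · rw [max_eq_right h1] at h
    have h2 : c = 1 := mul_left_cancel₀ hc.ne' (by rw [h, mul_one])
    rw [eqm_of_le (by rw [← h2]; exact h1), h2]
  · rw [max_eq_left h1] at h
    have h3 : c ≤ c * c := by rw [h]; exact h1
    have h4 : 1 ≤ c := by
      by_contra hcon
      push Not at hcon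
      nlinarith
    rcases le_or_gt A 1 with h2 | h2
    · rw [eqm_of_le h2]
      exact le_antisymm (h1.trans h2) h4
    · rw [eqm_of_gt h2, ← h, Real.sqrt_mul_self hc.le]

lemma mx_const (A c : ℝ) (n : ℕ) : ∀ j, 1 ≤ j → mx A (fun _ => c) n j = max A c := by
  intro j hj
  apply le_antisymm
  · exact mx_le A _ n _ (le_max_left _ _) j fun i _ => le_max_right _ _
  · exact max_le (A_le_mx A _ n j) (le_mx A (fun _ => c) n j 0 (by omega))

lemma mx_tendsto {A L : ℝ} {x : ℕ → ℝ} (hL : Tendsto x atTop (𝓝 L)) (j : ℕ) :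
    Tendsto (fun n => mx A x (n + 1) j) atTop (𝓝 (mx A (fun _ => L) 0 j)) := by
  induction j with
  | zero => exact tendsto_const_nhds
  | succ j ih =>
    refine ih.max ?_
    have : Tendsto (fun n : ℕ => n + 1 + j) atTop atTop :=
      tendsto_atTop_mono (fun n => by simp only [id]; omega) tendsto_id
    exact hL.comp this

lemma inv_pos {k : ℕ} (hk : 1 ≤ k) {A : ℝ} {x : ℕ → ℝ} (hx : ∀ n, 0 < x n) :
    0 < inv k A x 0 := (hx (0 + 0)).trans_le (le_inv hx 0 0 (by omega))

lemma bounds {k : ℕ} (hk : 1 ≤ k) {A : ℝ} {x : ℕ → ℝ} (h : IsSolution k A x) (n : ℕ) :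
    (inv k A x 0)⁻¹ ≤ x n ∧ x n ≤ inv k A x 0 := by
  have h1 := le_inv (A := A) h.1 n 0 (Nat.zero_le k)
  have h2 := (le_max_right _ _).trans (inv_ge (A := A) hk h.1 n 0 (Nat.zero_le k))
  rw [inv_const hk h, add_zero] at h1 h2
  refine ⟨?_, h1⟩
  rw [one_div] at h2
  exact (inv_le_comm₀ (h.1 n) (inv_pos hk h.1)).1 h2

/-- small case -/
lemma away_small {k : ℕ} (hk : 1 ≤ k) {A : ℝ} (hA : A ≤ 1) {x : ℕ → ℝ} (h : IsSolution k A x)
    (hn : ∃ m, x m ≠ x 0) :
    ∃ δ : ℝ, 0 < δ ∧ ∃ N : ℕ, ∀ n, N ≤ n → ∃ i, i ≤ k ∧ δ ≤ |x (n + i) - eqm A| := by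
  by_contra hcon
  push Not at hcon
  rw [eqm_of_le hA] at hcon
  have h1 : ∀ δ : ℝ, 0 < δ → δ < 1 → inv k A x 0 ≤ (1 + δ) * (1 / (1 - δ)) ^ (k + 1) := by
    intro δ h0 h1
    obtain ⟨n, -, hw⟩ := hcon δ h0 0
    rw [← inv_const hk h n]
    unfold inv
    have hp : ∏ i ∈ Finset.range (k + 1), max 1 (1 / x (n + i)) ≤ (1 / (1 - δ)) ^ (k + 1) := by
      have h3 : ∏ i ∈ Finset.range (k + 1), max 1 (1 / x (n + i)) ≤
          ∏ _i ∈ Finset.range (k + 1), (1 / (1 - δ)) := by
        refine Finset.prod_le_prod (fun i _ => zero_le_one.trans (le_max_left _ _)) fun i hi => ?_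
        have h4 := (abs_lt.1 (hw i (by have := Finset.mem_range.1 hi; omega))).1
        refine max_le ?_ ?_
        · rw [le_div_iff₀ (by linarith)]
          linarith
        · exact one_div_le_one_div_of_le (by linarith) (by linarith)
      simpa using h3
    have hm : mx A x n (k + 1) ≤ 1 + δ := by
      refine mx_le A x n _ (by linarith) (k + 1) fun i hi => ?_
      have h4 := (abs_lt.1 (hw i (by omega))).2
      linarith
    have hp0 : 0 ≤ ∏ i ∈ Finset.range (k + 1), max 1 (1 / x (n + i)) :=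
      Finset.prod_nonneg fun i _ => zero_le_one.trans (le_max_left _ _)
    exact mul_le_mul hm hp hp0 (by linarith)
  have h2 : inv k A x 0 ≤ 1 := by
    have ht : Tendsto (fun δ : ℝ => (1 + δ) * (1 / (1 - δ)) ^ (k + 1)) (𝓝[>] 0) (𝓝 1) := by
      have h3 : ContinuousAt (fun δ : ℝ => (1 + δ) * (1 / (1 - δ)) ^ (k + 1)) 0 := by
        refine ContinuousAt.mul (by fun_prop) (ContinuousAt.pow ?_ _)
        exact ContinuousAt.div (by fun_prop) (by fun_prop) (by norm_num)
      have h4 := h3.tendsto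
      simp only [add_zero, sub_zero, one_div_one, one_pow, mul_one] at h4
      exact h4.mono_left nhdsWithin_le_nhds
    refine ge_of_tendsto ht ?_
    filter_upwards [Ioo_mem_nhdsGT (show (0 : ℝ) < 1 by norm_num)] with δ hδ
    exact h1 δ hδ.1 hδ.2
  have h3 := const_of_window h zero_lt_one
    (by rw [one_mul, max_eq_right hA]) hk 0 (window_of_inv_one hk h.1 0 h2)
  obtain ⟨m, hm⟩ := hn
  exact hm (by rw [h3 m, h3 0])

/-- large case -/
lemma away_large {k : ℕ} (hk : 1 ≤ k) {A : ℝ} (hA : 1 < A) {x : ℕ → ℝ} (h : IsSolution k A x)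
    (hn : ∃ m, x m ≠ x 0) :
    ∃ δ : ℝ, 0 < δ ∧ ∃ N : ℕ, ∀ n, N ≤ n → ∃ i, i ≤ k ∧ δ ≤ |x (n + i) - eqm A| := by
  have hc0 := eqm_pos A
  have hcc := eqm_eq A
  rw [eqm_of_gt hA] at hc0 hcc ⊢
  set c := Real.sqrt A with hc
  have hc1 : 1 < c := one_lt_sqrt' hA
  have hcA : c < A := sqrt_lt_self' hA
  have hcA2 : c * c = A := Real.mul_self_sqrt (by linarith)
  by_cases hnear : ∃ n, ∀ i, i ≤ k → |x (n + i) - c| < min (c - 1) (A - c)
  swap
  · push Not at hnear
    refine ⟨min (c - 1) (A - c), lt_min (by linarith) (by linarith), 0, fun n _ => ?_⟩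
    obtain ⟨i, hi, h1⟩ := hnear n
    exact ⟨i, hi, h1⟩
  obtain ⟨n0, hw⟩ := hnear
  obtain ⟨hx, hrec⟩ := id h
  have hreg : ∀ i, i ≤ k → 1 < x (n0 + i) ∧ x (n0 + i) < A := by
    intro i hi
    have h1 := abs_lt.1 ((hw i hi).trans_le (min_le_left _ _))
    have h2 := abs_lt.1 ((hw i hi).trans_le (min_le_right _ _))
    exact ⟨by linarith [h1.1], by linarith [h2.2]⟩
  have hstep : ∀ m, (∀ i, i ≤ k → 1 < x (m + i) ∧ x (m + i) < A) → x (m + k + 1) = A / x m := by
    intro m hm
    rw [hrec m]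
    congr 1
    apply le_antisymm
    · refine mx_le A x (m + 1) A le_rfl k fun i hi => ?_
      rw [show m + 1 + i = m + (i + 1) by ring]
      exact (hm (i + 1) (by omega)).2.le
    · exact A_le_mx A x (m + 1) k
  have hall : ∀ m, ∀ i, i ≤ k → 1 < x (n0 + m + i) ∧ x (n0 + m + i) < A := by
    intro m
    induction m with
    | zero => intro i hi; rw [add_zero]; exact hreg i hi
    | succ m ih =>
      intro i hi
      rcases Nat.lt_or_ge i k with hik | hik
      · rw [show n0 + (m + 1) + i = n0 + m + (i + 1) by ring]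
        exact ih (i + 1) (by omega)
      · have hik' : i = k := by omega
        rw [hik', show n0 + (m + 1) + k = n0 + m + k + 1 by ring, hstep _ ih]
        have h0 := ih 0 (by omega)
        rw [add_zero] at h0
        have hx0 := hx (n0 + m)
        refine ⟨?_, ?_⟩
        · rw [lt_div_iff₀ hx0]
          linarith [h0.2]
        · rw [div_lt_iff₀ hx0]
          nlinarith [h0.1]
  have hrec' : ∀ m, x (n0 + m + k + 1) = A / x (n0 + m) := fun m => hstep _ (hall m)
  obtain ⟨i0, hi0, hne⟩ : ∃ i0, i0 ≤ k ∧ x (n0 + i0) ≠ c := by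
    by_contra hcon
    push Not at hcon
    have h3 := const_of_window h hc0 hcc hk n0 hcon
    obtain ⟨m, hm⟩ := hn
    exact hm (by rw [h3 m, h3 0])
  set a := x (n0 + i0) with ha
  have ha0 : 0 < a := hx _
  have hne2 : A / a ≠ c := by
    intro h1
    rw [div_eq_iff ha0.ne'] at h1
    apply hne
    have h2 : c * a = c * c := by rw [← h1, hcA2]
    exact mul_left_cancel₀ hc0.ne' h2
  have hval : ∀ q, x (n0 + i0 + q * (k + 1)) = a ∨ x (n0 + i0 + q * (k + 1)) = A / a := by
    intro q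
    induction q with
    | zero => left; rw [zero_mul, add_zero]
    | succ q ih =>
      have e1 : n0 + i0 + (q + 1) * (k + 1) = n0 + (i0 + q * (k + 1)) + k + 1 := by ring
      rw [e1, hrec', ← add_assoc]
      rcases ih with h1 | h1
      · right; rw [h1]
      · left
        rw [h1]
        have : A ≠ 0 := by linarith
        field_simp
  refine ⟨min |a - c| |A / a - c|, lt_min (abs_pos.2 (sub_ne_zero.2 hne))
    (abs_pos.2 (sub_ne_zero.2 hne2)), n0, fun n hn0 => ?_⟩
  obtain ⟨i, q, hi, hq⟩ : ∃ i q, i ≤ k ∧ n + i = n0 + i0 + q * (k + 1) := by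
    rcases le_total n (n0 + i0) with h1 | h1
    · exact ⟨n0 + i0 - n, 0, by omega, by omega⟩
    · set t := n - (n0 + i0) with ht
      have h2 : k + 1 ≤ (t + k) % (k + 1) + k + 1 := by omega
      have h3 := Nat.mod_add_div (t + k) (k + 1)
      have h4 := Nat.mod_lt (t + k) (Nat.succ_pos k)
      refine ⟨k - (t + k) % (k + 1), (t + k) / (k + 1), by omega, ?_⟩
      have h5 : n = n0 + i0 + t := by omega
      have h6 : (t + k) / (k + 1) * (k + 1) = (k + 1) * ((t + k) / (k + 1)) := mul_comm _ _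
      rw [h5, h6]
      have h7 : (t + k) % (k + 1) ≤ k := by
        have : (t + k) % (k + 1) < k + 1 := h4
        omega
      omega
  refine ⟨i, hi, ?_⟩
  rw [hq]
  rcases hval q with h1 | h1
  · rw [h1]; exact min_le_left _ _
  · rw [h1]; exact min_le_right _ _

lemma away {k : ℕ} (hk : 1 ≤ k) {A : ℝ} {x : ℕ → ℝ} (h : IsSolution k A x)
    (hn : ∃ m, x m ≠ x 0) :
    ∃ δ : ℝ, 0 < δ ∧ ∃ N : ℕ, ∀ n, N ≤ n → ∃ i, i ≤ k ∧ δ ≤ |x (n + i) - eqm A| := by
  rcases le_or_gt A 1 with hA | hA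
  · exact away_small hk hA h hn
  · exact away_large hk hA h hn

/-- **All orders.** Let `k ≥ 1`, let `A` be any real number and let `x` be a positive solution of
`x (n + k + 1) = max {A, x (n + k), …, x (n + 1)} / x n` (the question is `k = 2`, `A > 0`).

(1) `max {A, x n, …, x (n + k)} * ∏_{i ≤ k} max {1, 1 / x (n + i)}` has the same value `I` for all
`n`, and `1 / I ≤ x n ≤ I` for all `n`.

(2) If `x` is not constant then it eventually stays away from the equilibrium `max {1, √A}`: for some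
`δ > 0` and all large `n` one of `x n, …, x (n + k)` has distance at least `δ` from it.

(3) If `x` has a limit, then `x` is constant.

(4) The constant `c > 0` is a solution if and only if `c = max {1, √A}`. -/
theorem result (k : ℕ) (hk : 1 ≤ k) (A : ℝ) :
    (∀ x : ℕ → ℝ, IsSolution k A x →
      (∀ n, inv k A x n = inv k A x 0 ∧ (inv k A x 0)⁻¹ ≤ x n ∧ x n ≤ inv k A x 0) ∧
      ((∃ m, x m ≠ x 0) → ∃ δ : ℝ, 0 < δ ∧ ∃ N : ℕ, ∀ n, N ≤ n →
        ∃ i, i ≤ k ∧ δ ≤ |x (n + i) - eqm A|) ∧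
      ((∃ L : ℝ, Tendsto x atTop (𝓝 L)) → ∀ m, x m = x 0)) ∧
    ∀ c : ℝ, 0 < c → (IsSolution k A (fun _ => c) ↔ c = eqm A) := by
  refine ⟨fun x h => ⟨fun n => ⟨inv_const hk h n, bounds hk h n⟩, away hk h, ?_⟩,
    fun c hc => ⟨fun h => ?_, fun h => ?_⟩⟩
  · rintro ⟨L, hL⟩
    by_contra hcon
    push Not at hcon
    obtain ⟨δ, hδ, N, hN⟩ := away hk h hcon
    have hL0 : 0 < L :=
      (_root_.inv_pos.2 (inv_pos hk h.1)).trans_le (ge_of_tendsto' hL fun n => (bounds hk h n).1)
    have hLL : L * L = max A L := by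
      have ht : Tendsto (fun n : ℕ => x (n + k + 1)) atTop (𝓝 L) := by
        have := (tendsto_add_atTop_iff_nat (k + 1)).2 hL
        simpa [add_assoc] using this
      have h1 := ht.mul hL
      have h2 := mx_tendsto (A := A) hL k
      rw [mx_const A L 0 k hk] at h2
      refine tendsto_nhds_unique (h1.congr fun n => ?_) h2
      rw [h.2 n, div_mul_cancel₀ _ (h.1 n).ne']
    have hLe := eqm_unique hL0 hLL
    rw [← hLe] at hN
    obtain ⟨M, hM⟩ := Metric.tendsto_atTop.1 hL δ hδ
    obtain ⟨i, -, hi⟩ := hN (max N M) (le_max_left _ _)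
    have h3 := hM (max N M + i) ((le_max_right _ _).trans (Nat.le_add_right _ _))
    rw [Real.dist_eq] at h3
    linarith
  · have h1 := h.2 0
    rw [mx_const A c _ k hk, eq_div_iff hc.ne'] at h1
    exact eqm_unique hc h1
  · refine ⟨fun _ => hc, fun n => ?_⟩
    show c = mx A (fun _ => c) (n + 1) k / c
    rw [mx_const A c _ k hk, eq_div_iff hc.ne', h]
    exact eqm_eq A

end Pool.Agent.Results.MP_d408b2_an.AllOrders
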